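import Pool.Agent.Helper566.Integ

open MeasureTheory Set Metric
open scoped ContDiff

namespace Pool.Agent.Results.MP_a785f2_an.Disproof

/-- Euclidean space `ℝⁿ`. -/
abbrev E (n : ℕ) : Type := EuclideanSpace ℝ (Fin n)

/-- Lebesgue measure on the open unit ball `Bⁿ`. -/
noncomputable def ballMeasure (n : ℕ) : Measure (E n) := volume.restrict (ball 0 1)

/-- `φ ∈ C_c^∞(Bⁿ)`. -/
def IsTest {n : ℕ} (φ : E n → ℝ) : Prop :=
  ContDiff ℝ ∞ φ ∧ HasCompactSupport φ ∧ tsupport φ ⊆ ball 0 1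

/-- The classical partial derivative `∂_α φ`. -/
noncomputable def pd {n : ℕ} (φ : E n → ℝ) (α : Fin n) (x : E n) : ℝ :=
  fderiv ℝ φ x (EuclideanSpace.single α 1)

/-- `u ∈ W^{1,n}(Bⁿ, ℝᵐ)` with weak gradient `Du`, where `Du x i α = ∂_α uⁱ (x)`. -/
def IsSobolev {n m : ℕ} (u : E n → Fin m → ℝ) (Du : E n → Fin m → Fin n → ℝ) : Prop :=
  (∀ i, MemLp (fun x => u x i) n (ballMeasure n)) ∧
  (∀ i α, MemLp (fun x => Du x i α) n (ballMeasure n)) ∧
  ∀ i α (φ : E n → ℝ), IsTest φ →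
    ∫ x, u x i * pd φ α x ∂(ballMeasure n) = - ∫ x, Du x i α * φ x ∂(ballMeasure n)

/-- The norm `(∑_{i,α} (∂_α uⁱ)²)^{1/2}` of the gradient matrix. -/
noncomputable def matNorm {n m : ℕ} (D : Fin m → Fin n → ℝ) : ℝ :=
  Real.sqrt (∑ i, ∑ α, D i α ^ 2)

/-- An antisymmetric potential `Ω = (Ω^α_{ij})` (written `Ω i j α`) with entries in `Lⁿ(Bⁿ)`. -/
def IsAntisymmetricPotential {n m : ℕ} (Ω : Fin m → Fin m → Fin n → E n → ℝ) : Prop :=
  (∀ i j α, MemLp (Ω i j α) n (ballMeasure n)) ∧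
  ∀ i j α, ∀ᵐ x ∂(ballMeasure n), Ω j i α x = - Ω i j α x

/-- `u`, with gradient `Du`, solves `-div(|∇u|^{n-2} ∇uⁱ) = ∑_{j,α} Ω^α_{ij} |∇u|^{n-2} ∂_α uʲ`
in the sense of distributions on `Bⁿ`, for every `i`. -/
def IsWeakSolution {n m : ℕ} (Ω : Fin m → Fin m → Fin n → E n → ℝ)
    (Du : E n → Fin m → Fin n → ℝ) : Prop :=
  ∀ (i : Fin m) (φ : E n → ℝ), IsTest φ →
    ∫ x, ∑ α, matNorm (Du x) ^ (n - 2) * Du x i α * pd φ α x ∂(ballMeasure n)
      = ∫ x, (∑ j, ∑ α, Ω i j α x * (matNorm (Du x) ^ (n - 2) * Du x j α)) * φ x ∂(ballMeasure n)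

/-- `u` agrees almost everywhere on `Bⁿ` with a map that is continuous on `Bⁿ`. -/
def HasContinuousRepresentative {n m : ℕ} (u : E n → Fin m → ℝ) : Prop :=
  ∃ v : E n → Fin m → ℝ, ContinuousOn v (ball 0 1) ∧ ∀ᵐ x ∂(ballMeasure n), u x = v x

/-- For every `n ≥ 3` there are an antisymmetric potential with entries in `Lⁿ(Bⁿ)` and a weak
solution `u ∈ W^{1,n}(Bⁿ, ℝᵐ)`, `m = n + 1`, of the corresponding `n`-Laplace system which has no
continuous representative. -/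
theorem result : ∀ n : ℕ, 3 ≤ n →
    ∃ (Ω : Fin (n + 1) → Fin (n + 1) → Fin n → E n → ℝ) (u : E n → Fin (n + 1) → ℝ)
      (Du : E n → Fin (n + 1) → Fin n → ℝ),
      IsAntisymmetricPotential Ω ∧ IsSobolev u Du ∧ IsWeakSolution Ω Du ∧
        ¬ HasContinuousRepresentative u := by
  intro n hn
  refine ⟨Helper566.Map.Om, Helper566.Map.u, Helper566.Map.Du, ⟨?_, ?_⟩, ⟨?_, ?_, ?_⟩, ?_, ?_⟩
  · exact fun i j α => Helper566.Map.memLp_Om hn i j α
  · exact fun i j α => Filter.Eventually.of_forall fun x => Helper566.Map.Om_antisymm j i α x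
  · exact fun i => Helper566.Map.memLp_u hn i
  · exact fun i α => Helper566.Map.memLp_Du hn i α
  · rintro i α φ ⟨hφ, hc, hs⟩
    exact Helper566.Map.weak_gradient hn i α hφ hc hs
  · rintro i φ ⟨hφ, hc, hs⟩
    exact Helper566.Map.weak_equation hn i hφ hc hs
  · exact Helper566.Map.not_continuous hn

end Pool.Agent.Results.MP_a785f2_an.Disproof
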